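import Pool.Agent.X61.RI.Part

/-!
# The abc inequality for the points with a large random part of the conductor

Let `K` be a number field of degree `n`, `S₀` a finite set of primes of `K` and `T` a random set of
primes: the events `v ∈ T` are independent and of probability at most `N(v) ^ (-τ)`. (For
probabilities `N(v) ^ (-τ)` with `τ ≤ 1` the set `T` is infinite.) For a point `(a : b : c)` over `K`
with `a + b + c = 0`, `abc ≠ 0`, let `H` be its height, `N` its conductor and `N_T` the part of the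
conductor composed of the primes of `S₀ ∪ T`. Points of all heights are considered.

1. If `κ τ > 2/3`, then almost surely all but finitely many points satisfy `N_T < N ^ κ`.
2. For every `M > 1/3` there is `ν > 0` such that, if `κ τ > 2/3 - ν`, almost surely all but
   finitely many of the points with `N_T ≥ N ^ κ` satisfy `H ≤ N ^ M`; if only
   `σ + κ τ > 2/3 - ν`, `σ ≥ 0`, then for almost all `T` there are at most `C_T X ^ σ` points
   with `N ^ n ≤ X`, `N_T ≥ N ^ κ` and `H > N ^ M`, for all `X ≥ 1`.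
-/

set_option autoImplicit false

namespace Pool.Agent.Results.MP_6e34ef_nt.LargeRandomPart

open NumberField IsDedekindDomain MeasureTheory ProbabilityTheory

section Defs

variable {K : Type} [Field K] [NumberField K]

/-- the absolute norm of a prime -/
noncomputable def norm (v : HeightOneSpectrum (𝓞 K)) : ℝ := (Ideal.absNorm v.asIdeal : ℝ)

/-- `log H(a)` (the height of Mathlib is relative to `K`) -/
noncomputable def logH (a : Fin 3 → K) : ℝ :=
  Height.logHeight a / (Module.finrank ℚ K : ℝ)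

/-- the primes at which the absolute values of the coordinates are not all equal -/
def supp (a : Fin 3 → K) : Set (HeightOneSpectrum (𝓞 K)) :=
  {v | ∃ i j, v.valuation K (a i) ≠ v.valuation K (a j)}

/-- the logarithm of the part of the conductor of `a` composed of the primes of `U` -/
noncomputable def logN (U : Set (HeightOneSpectrum (𝓞 K))) (a : Fin 3 → K) : ℝ :=
  (∑ᶠ (v : HeightOneSpectrum (𝓞 K)) (_ : v ∈ supp a ∩ U), Real.log (norm v)) /
    (Module.finrank ℚ K : ℝ)

/-- the triple `(x, 1 - x, -1)`; every point `(a : b : c)` with `a + b + c = 0`, `abc ≠ 0` is the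
point of this triple for exactly one `x ≠ 0, 1` -/
def tri (x : K) : Fin 3 → K := ![x, 1 - x, -1]

end Defs

open Pool.Agent.H691R3 Pool.Agent.TH876.Loc Pool.Agent.Y911.RR
open Pool.Agent.X61.RI (sp3 tr)

variable {K : Type} [Field K] [NumberField K]

theorem mem_supp (x : {x : K // x ≠ 0 ∧ x ≠ 1}) (v : Pr K) :
    v ∈ supp (tri x.1) ↔ v ∈ sp3 x := by
  unfold sp3
  rw [Pool.Agent.X61.RI.mem_opt]
  have e0 : v.valuation K (tri x.1 0) = v.valuation K x.1 := rfl
  have e1 : v.valuation K (tri x.1 1) = v.valuation K (x.1 - 1) := by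
    show v.valuation K (1 - x.1) = _
    rw [← Valuation.map_neg, neg_sub]
  have e2 : v.valuation K (tri x.1 2) = 1 := by
    show v.valuation K (-1) = _
    rw [Valuation.map_neg, map_one]
  constructor
  · rintro ⟨i, j, hij⟩ ⟨h1, h2⟩
    apply hij
    have : ∀ i, v.valuation K (tri x.1 i) = 1 := by
      intro i
      fin_cases i
      · exact e0.trans h1
      · exact e1.trans h2
      · exact e2
    rw [this i, this j]
  · intro h
    by_cases h1 : v.valuation K x.1 = 1
    · refine ⟨1, 2, ?_⟩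
      rw [e1, e2]
      exact fun h2 => h ⟨h1, h2⟩
    · refine ⟨0, 2, ?_⟩
      rw [e0, e2]
      exact h1

theorem logN_eq (x : {x : K // x ≠ 0 ∧ x ≠ 1}) (U : Set (Pr K)) {s : Finset (Pr K)}
    (hs : ∀ v, v ∈ s ↔ v ∈ sp3 x ∧ v ∈ U) :
    logN U (tri x.1) = Real.log (nn s) / (Module.finrank ℚ K : ℝ) := by
  unfold logN
  congr 1
  rw [Pool.Agent.TH876.KR.log_nn, ← finsum_mem_coe_finset]
  refine finsum_mem_congr ?_ fun v _ => rfl
  ext v
  rw [Set.mem_inter_iff, mem_supp, Finset.mem_coe, hs]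

theorem logN_univ (x : {x : K // x ≠ 0 ∧ x ≠ 1}) :
    logN Set.univ (tri x.1) = Real.log (nn (sp3 x)) / (Module.finrank ℚ K : ℝ) :=
  logN_eq x Set.univ fun v => by simp

theorem deg_pos (K : Type) [Field K] [NumberField K] : (0 : ℝ) < Module.finrank ℚ K := by
  exact_mod_cast (Module.finrank_pos (R := ℚ) (M := K))

/-- the condition on the random part -/
theorem large_iff {κ : ℝ} (x : {x : K // x ≠ 0 ∧ x ≠ 1}) (U : Set (Pr K)) {s : Finset (Pr K)}
    (hs : ∀ v, v ∈ s ↔ v ∈ sp3 x ∧ v ∈ U) :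
    κ * logN Set.univ (tri x.1) ≤ logN U (tri x.1) ↔ (nn (sp3 x)) ^ κ ≤ nn s := by
  have hd := deg_pos K
  rw [logN_univ, logN_eq x U hs, ← mul_div_assoc, div_le_div_iff_of_pos_right hd,
    ← Real.log_rpow (nn_pos _), Real.log_le_log_iff (Real.rpow_pos_of_pos (nn_pos _) _) (nn_pos _)]

theorem exc_iff {M : ℝ} (x : {x : K // x ≠ 0 ∧ x ≠ 1}) :
    M * logN Set.univ (tri x.1) < logH (tri x.1) ↔
      M * Real.log (nn (sp3 x)) < Height.logHeight (tr x.1) := by
  have hd := deg_pos K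
  rw [logN_univ, ← mul_div_assoc]
  unfold logH
  rw [div_lt_div_iff_of_pos_right hd]
  rfl

/-- **The abc inequality for the points with a large random part of the conductor.** Let `K` be a
number field of degree `n`, `S₀` a finite set of primes of `K`, `τ ≥ 0` and `T = {v | ω ∈ E v}` a random
set of primes, where the events `E v` are independent, of probability at most `N(v) ^ (-τ)`. Write `H`,
`N`, `N_T` for the height and the conductor of the point `(x : 1 - x : -1)` and for the part of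
the conductor composed of primes of `S₀ ∪ T`.

(1) If `κ τ > 2/3`, then with probability one there are only finitely many `x ≠ 0, 1` in `K` with
`N_T ≥ N ^ κ`.

(2) For every `M > 1/3` there is `ν > 0`, depending on `K` and `M` only, such that, if
`κ τ > 2/3 - ν`, with probability one there are only finitely many `x ≠ 0, 1` in `K` with
`N_T ≥ N ^ κ` and `H > N ^ M`; and if `σ ≥ 0` and `σ + κ τ > 2/3 - ν`, with probability one there is `C`
such that for every `X ≥ 1` there are at most `C X ^ σ` numbers `x ≠ 0, 1` in `K` with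
`N_T ≥ N ^ κ`, `H > N ^ M` and `N ^ n ≤ X`. -/
theorem result (K : Type) [Field K] [NumberField K] :
    (∀ S₀ : Set (HeightOneSpectrum (𝓞 K)), S₀.Finite → ∀ τ κ : ℝ, 0 ≤ τ → 2 / 3 < κ * τ →
      ∀ (Ω : Type) [MeasurableSpace Ω] (μ : Measure Ω) (E : HeightOneSpectrum (𝓞 K) → Set Ω),
      iIndepSet E μ → (∀ v, μ (E v) ≤ ENNReal.ofReal (norm v ^ (-τ))) →
      ∀ᵐ ω ∂μ, {x : K | (x ≠ 0 ∧ x ≠ 1) ∧
        κ * logN Set.univ (tri x) ≤ logN (S₀ ∪ {v | ω ∈ E v}) (tri x)}.Finite) ∧
    (∀ M : ℝ, 1 / 3 < M → ∃ ν : ℝ, 0 < ν ∧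
      ∀ S₀ : Set (HeightOneSpectrum (𝓞 K)), S₀.Finite → ∀ τ κ σ : ℝ, 0 ≤ τ → 0 ≤ σ →
      2 / 3 - ν < σ + κ * τ →
      ∀ (Ω : Type) [MeasurableSpace Ω] (μ : Measure Ω) (E : HeightOneSpectrum (𝓞 K) → Set Ω),
      iIndepSet E μ → (∀ v, μ (E v) ≤ ENNReal.ofReal (norm v ^ (-τ))) →
      ∀ᵐ ω ∂μ, (σ = 0 → {x : K | (x ≠ 0 ∧ x ≠ 1) ∧
          κ * logN Set.univ (tri x) ≤ logN (S₀ ∪ {v | ω ∈ E v}) (tri x) ∧
          M * logN Set.univ (tri x) < logH (tri x)}.Finite) ∧
        ∃ C : ℝ, ∀ X : ℝ, 1 ≤ X →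
        {x : K | (x ≠ 0 ∧ x ≠ 1) ∧
          κ * logN Set.univ (tri x) ≤ logN (S₀ ∪ {v | ω ∈ E v}) (tri x) ∧
          M * logN Set.univ (tri x) < logH (tri x) ∧
          (Module.finrank ℚ K : ℝ) * logN Set.univ (tri x) ≤ Real.log X}.Finite ∧
        ({x : K | (x ≠ 0 ∧ x ≠ 1) ∧
          κ * logN Set.univ (tri x) ≤ logN (S₀ ∪ {v | ω ∈ E v}) (tri x) ∧
          M * logN Set.univ (tri x) < logH (tri x) ∧
          (Module.finrank ℚ K : ℝ) * logN Set.univ (tri x) ≤ Real.log X}.ncard : ℝ) ≤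
            C * X ^ σ) := by
  classical
  have hd := deg_pos K
  refine ⟨?_, ?_⟩
  · intro S₀ hS₀ τ κ hτ hκ Ω _ μ E hi hE
    obtain ⟨D, hD, hb⟩ := Pool.Agent.X61.RI.all3 (K := K) (θ := (2 / 3 + κ * τ) / 2) (by linarith)
    have h := Pool.Agent.X61.RI.part_sum (μ := μ) (E := E) sp3 hS₀.toFinset hτ (σ := 0) (κ := κ)
      hD hb (by linarith) hi hE
    filter_upwards [h] with ω hω
    obtain ⟨C, hC⟩ := hω
    have hfin : {x : {x : K // x ≠ 0 ∧ x ≠ 1} | (nn (sp3 x)) ^ κ ≤
        nn ((sp3 x).filter fun v => v ∈ hS₀.toFinset ∨ ω ∈ E v)}.Finite := by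
      refine Pool.Agent.X61.RI.finite_of_card (C := C) fun F hF => ?_
      have h1 := hC F hF
      simp only [neg_zero, Real.rpow_zero, Finset.sum_const, nsmul_eq_mul, mul_one] at h1
      exact h1
    refine (hfin.image Subtype.val).subset ?_
    rintro x ⟨hx, hx'⟩
    refine ⟨⟨x, hx⟩, ?_, rfl⟩
    refine (large_iff ⟨x, hx⟩ (S₀ ∪ {v | ω ∈ E v}) fun v => ?_).1 hx'
    rw [Finset.mem_filter, Set.Finite.mem_toFinset]
    exact Iff.rfl
  · intro M hM
    obtain ⟨ν, hν, hν3, hexc⟩ := Pool.Agent.X61.RI.exc3 (K := K) hM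
    refine ⟨ν, hν, ?_⟩
    intro S₀ hS₀ τ κ σ hτ hσ hθ Ω _ μ E hi hE
    obtain ⟨D, hD, hb⟩ := hexc ((2 / 3 - ν + (σ + κ * τ)) / 2) (by linarith)
    have h := Pool.Agent.X61.RI.part_sum (μ := μ) (E := E)
      (fun t : {x : {x : K // x ≠ 0 ∧ x ≠ 1} //
        M * Real.log (nn (sp3 x)) < Height.logHeight (tr x.1)} => sp3 t.1)
      hS₀.toFinset hτ (σ := σ) (κ := κ) hD hb (by linarith) hi hE
    filter_upwards [h] with ω hω
    obtain ⟨C, hC⟩ := hω
    have hcond : ∀ x : K, ∀ hx : x ≠ 0 ∧ x ≠ 1,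
        κ * logN Set.univ (tri x) ≤ logN (S₀ ∪ {v | ω ∈ E v}) (tri x) →
        (nn (sp3 ⟨x, hx⟩)) ^ κ ≤
          nn ((sp3 ⟨x, hx⟩).filter fun v => v ∈ hS₀.toFinset ∨ ω ∈ E v) := by
      intro x hx hx'
      refine (large_iff ⟨x, hx⟩ (S₀ ∪ {v | ω ∈ E v}) fun v => ?_).1 hx'
      rw [Finset.mem_filter, Set.Finite.mem_toFinset]
      exact Iff.rfl
    refine ⟨fun hσ0 => ?_, C, fun X hX => ?_⟩
    · have hfin : {t : {x : {x : K // x ≠ 0 ∧ x ≠ 1} //
          M * Real.log (nn (sp3 x)) < Height.logHeight (tr x.1)} |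
          (nn (sp3 t.1)) ^ κ ≤
            nn ((sp3 t.1).filter fun v => v ∈ hS₀.toFinset ∨ ω ∈ E v)}.Finite := by
        refine Pool.Agent.X61.RI.finite_of_card (C := C) fun F hF => ?_
        have h1 := hC F hF
        rw [hσ0] at h1
        simp only [neg_zero, Real.rpow_zero, Finset.sum_const, nsmul_eq_mul, mul_one] at h1
        exact h1
      refine (hfin.image fun t => t.1.1).subset ?_
      rintro x ⟨hx, hx', hx2⟩
      exact ⟨⟨⟨x, hx⟩, (exc_iff ⟨x, hx⟩).1 hx2⟩, hcond x hx hx', rfl⟩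
    · have h2 := Pool.Agent.X61.RI.count_of_sum
        (f := fun t : {x : {x : K // x ≠ 0 ∧ x ≠ 1} //
          M * Real.log (nn (sp3 x)) < Height.logHeight (tr x.1)} => nn (sp3 t.1))
        (fun t => one_le_nn _) hσ hC hX
      have hsub : {x : K | (x ≠ 0 ∧ x ≠ 1) ∧
          κ * logN Set.univ (tri x) ≤ logN (S₀ ∪ {v | ω ∈ E v}) (tri x) ∧
          M * logN Set.univ (tri x) < logH (tri x) ∧
          (Module.finrank ℚ K : ℝ) * logN Set.univ (tri x) ≤ Real.log X} ⊆
          (fun t : {x : {x : K // x ≠ 0 ∧ x ≠ 1} //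
            M * Real.log (nn (sp3 x)) < Height.logHeight (tr x.1)} => t.1.1) ''
            {t | (nn (sp3 t.1)) ^ κ ≤
              nn ((sp3 t.1).filter fun v => v ∈ hS₀.toFinset ∨ ω ∈ E v) ∧
              nn (sp3 t.1) ≤ X} := by
        rintro x ⟨hx, hx', hx2, hx3⟩
        refine ⟨⟨⟨x, hx⟩, (exc_iff ⟨x, hx⟩).1 hx2⟩, ⟨hcond x hx hx', ?_⟩, rfl⟩
        show nn (sp3 ⟨x, hx⟩) ≤ X
        have h4 := logN_univ (K := K) ⟨x, hx⟩
        have h4' : logN Set.univ (tri x) =
          Real.log (nn (sp3 ⟨x, hx⟩)) / (Module.finrank ℚ K : ℝ) := h4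
        rw [h4', mul_div_cancel₀ _ hd.ne', Real.log_le_log_iff (nn_pos _) (by linarith)] at hx3
        exact hx3
      refine ⟨(h2.1.image _).subset hsub, ?_⟩
      have h5 := (Set.ncard_le_ncard hsub (h2.1.image _)).trans (Set.ncard_image_le h2.1)
      have h6 := h2.2
      refine le_trans ?_ h6
      exact_mod_cast h5

end Pool.Agent.Results.MP_6e34ef_nt.LargeRandomPart
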