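import Pool.Agent.X61.RS.NF

/-!
# The uniform abc conjecture and random sets of primes, in all number fields of all degrees

For `x ∈ K`, `x ≠ 0, 1`, the triple `(x, 1 - x, -1)` represents the point `(a : b : c)` with
`a + b + c = 0`, `abc ≠ 0`. For a random set `T` of `k` primes no point of bounded height has a prime of `T` in
its conductor and a small conductor outside `T`. All constants are absolute: they do not depend on `K` or its degree.
-/

set_option autoImplicit false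

namespace Pool.Agent.Results.MP_6e34ef_nt.RandomPrimeIdeals

open NumberField IsDedekindDomain Finset

variable {K : Type} [Field K] [NumberField K]

/-- `log H(a_0, a_1, a_2)` -/
noncomputable def logH (a : Fin 3 → K) : ℝ :=
  (∑ w : InfinitePlace K, (w.mult : ℝ) * Real.log (max (w (a 0)) (max (w (a 1)) (w (a 2)))) +
    ∑ᶠ v : HeightOneSpectrum (𝓞 K), Real.log
      (max (FinitePlace.mk v (a 0)) (max (FinitePlace.mk v (a 1)) (FinitePlace.mk v (a 2))))) /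
    (Module.finrank ℚ K : ℝ)

/-- the primes at which `|a_0|, |a_1|, |a_2|` are not all equal -/
def supp (a : Fin 3 → K) : Set (HeightOneSpectrum (𝓞 K)) :=
  {v | ¬ (FinitePlace.mk v (a 0) = FinitePlace.mk v (a 1) ∧
      FinitePlace.mk v (a 1) = FinitePlace.mk v (a 2))}

/-- the norm of a prime, to the power `1 / [K : ℚ]` -/
noncomputable def nrm (v : HeightOneSpectrum (𝓞 K)) : ℝ :=
  (Ideal.absNorm v.asIdeal : ℝ) ^ (1 / (Module.finrank ℚ K : ℝ))

/-- the part of the conductor outside `S` -/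
noncomputable def outer (S : Finset (HeightOneSpectrum (𝓞 K))) (a : Fin 3 → K) : ℝ :=
  ∏ᶠ (v : HeightOneSpectrum (𝓞 K)) (_ : v ∈ supp a ∧ v ∉ S), nrm v

open Classical in
/-- for all points `(x, 1 - x, -1)`, `x ≠ 0, 1`, of height at most `B` for which the part of the conductor outside
`S₀ ∪ T` is at most `Y`, the conductor contains no prime of `T` -/
def Good (S₀ T : Finset (HeightOneSpectrum (𝓞 K))) (B Y : ℝ) : Prop :=
  ∀ x : K, x ≠ 0 → x ≠ 1 → Real.exp (logH ![x, 1 - x, -1]) ≤ B →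
    outer (S₀ ∪ T) ![x, 1 - x, -1] ≤ Y → ∀ v ∈ T, v ∉ supp ![x, 1 - x, -1]

section aux

theorem nm_pos (v : HeightOneSpectrum (𝓞 K)) : (1 : ℝ) ≤ Ideal.absNorm v.asIdeal :=
  Pool.Agent.X61.RS.NF.nm_pos v

theorem outer_pow {S : Finset (HeightOneSpectrum (𝓞 K))} {x : K} (h0 : x ≠ 0) (h1 : x ≠ 1) :
    (outer S ![x, 1 - x, -1]) ^ Module.finrank ℚ K =
      ∏ᶠ (v : HeightOneSpectrum (𝓞 K)) (_ : v ∈ supp ![x, 1 - x, -1] ∧ v ∉ S),
        (Ideal.absNorm v.asIdeal : ℝ) := by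
  have hf : {v : HeightOneSpectrum (𝓞 K) | v ∈ supp ![x, 1 - x, -1] ∧ v ∉ S}.Finite :=
    (Pool.Agent.X61.RS.NF.supp_fin h0 h1).subset fun v hv => hv.1
  have hn : (Module.finrank ℚ K : ℝ) ≠ 0 := Pool.Agent.X61.RS.NF.fin_pos.ne'
  have e1 : outer S ![x, 1 - x, -1] = ∏ v ∈ hf.toFinset, nrm v :=
    finprod_mem_eq_finite_toFinset_prod _ hf
  have e2 : (∏ᶠ (v : HeightOneSpectrum (𝓞 K)) (_ : v ∈ supp ![x, 1 - x, -1] ∧ v ∉ S),
        (Ideal.absNorm v.asIdeal : ℝ)) = ∏ v ∈ hf.toFinset, (Ideal.absNorm v.asIdeal : ℝ) :=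
    finprod_mem_eq_finite_toFinset_prod _ hf
  rw [e1, e2, ← prod_pow]
  refine prod_congr rfl fun v _ => ?_
  have := nm_pos v
  rw [nrm, ← Real.rpow_natCast, ← Real.rpow_mul (by linarith), one_div_mul_cancel hn, Real.rpow_one]

theorem prod_nrm_pow (S : Finset (HeightOneSpectrum (𝓞 K))) :
    (∏ v ∈ S, nrm v) ^ Module.finrank ℚ K = ∏ v ∈ S, (Ideal.absNorm v.asIdeal : ℝ) := by
  have hn : (Module.finrank ℚ K : ℝ) ≠ 0 := Pool.Agent.X61.RS.NF.fin_pos.ne'
  rw [← prod_pow]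
  refine prod_congr rfl fun v _ => ?_
  have := nm_pos v
  rw [nrm, ← Real.rpow_natCast, ← Real.rpow_mul (by linarith), one_div_mul_cancel hn, Real.rpow_one]

theorem nrm_ge (v : HeightOneSpectrum (𝓞 K)) : 1 ≤ nrm v :=
  Real.one_le_rpow (nm_pos v) (div_nonneg zero_le_one (Nat.cast_nonneg _))

open Classical in
theorem bad_of_not_good {S₀ T : Finset (HeightOneSpectrum (𝓞 K))} {B Y : ℝ} (h : ¬ Good S₀ T B Y) :
    Pool.Agent.X61.RS.NF.Bad S₀ T B (Y ^ Module.finrank ℚ K) := by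
  unfold Good at h
  push Not at h
  obtain ⟨x, h0, h1, hB, hY, v, hv, hvs⟩ := h
  refine ⟨x, ⟨h0, h1, hB⟩, ⟨v, hv, hvs⟩, ?_⟩
  have h2 := outer_pow (S := S₀ ∪ T) h0 h1
  have h3 : {v : HeightOneSpectrum (𝓞 K) | v ∈ supp ![x, 1 - x, -1] ∧ v ∉ S₀ ∧ v ∉ T} =
      {v : HeightOneSpectrum (𝓞 K) | v ∈ supp ![x, 1 - x, -1] ∧ v ∉ S₀ ∪ T} := by
    ext v
    rw [Set.mem_ofPred_eq, Set.mem_ofPred_eq, mem_union, not_or]
  have h4 : (∏ᶠ (v : HeightOneSpectrum (𝓞 K)) (_ : v ∈ supp ![x, 1 - x, -1] ∧ v ∉ S₀ ∧ v ∉ T),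
      (Ideal.absNorm v.asIdeal : ℝ)) = ∏ᶠ (v : HeightOneSpectrum (𝓞 K))
        (_ : v ∈ supp ![x, 1 - x, -1] ∧ v ∉ S₀ ∪ T), (Ideal.absNorm v.asIdeal : ℝ) := by
    change (∏ᶠ (v : HeightOneSpectrum (𝓞 K)) (_ : v ∈ {v : HeightOneSpectrum (𝓞 K) |
      v ∈ supp ![x, 1 - x, -1] ∧ v ∉ S₀ ∧ v ∉ T}), (Ideal.absNorm v.asIdeal : ℝ)) = _
    rw [h3]
    rfl
  change (∏ᶠ (v : HeightOneSpectrum (𝓞 K)) (_ : v ∈ supp ![x, 1 - x, -1] ∧ v ∉ S₀ ∧ v ∉ T),
      (Ideal.absNorm v.asIdeal : ℝ)) ≤ _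
  rw [h4, ← h2]
  refine pow_le_pow_left₀ ?_ hY _
  unfold outer
  exact finprod_nonneg fun v => finprod_nonneg fun _ => by linarith [nrm_ge v]

open Classical in
theorem part1 {ε : ℝ} (hε : 0 < ε) : ∃ C : ℝ, 1 ≤ C ∧
    ∀ (K : Type) [Field K] [NumberField K] (S₀ P : Finset (HeightOneSpectrum (𝓞 K)))
      (R Y B : ℝ) (k : ℕ), (∀ v ∈ P, v ∉ S₀ ∧ nrm v ≤ R) → 1 ≤ B → 1 ≤ Y →
      (((P.powersetCard k).filter (fun T => ¬ Good S₀ T B Y)).card : ℝ) * P.card ≤
        (C * B ^ ε * (R * Y * ∏ v ∈ S₀, nrm v) ^ (2 / 3 + ε)) ^ Module.finrank ℚ K *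
          k * P.card.choose k := by
  obtain ⟨C, hC, h⟩ := Pool.Agent.X61.RS.NF.bad_count hε
  refine ⟨C, hC, fun K _ _ S₀ P R Y B k hP hB hY => ?_⟩
  have hn : (Module.finrank ℚ K : ℝ) ≠ 0 := Pool.Agent.X61.RS.NF.fin_pos.ne'
  rcases Finset.eq_empty_or_nonempty P with hPe | ⟨v₀, hv₀⟩
  · subst hPe
    rcases Nat.eq_zero_or_pos k with hk | hk
    · subst hk
      simp
    · rw [card_empty, Nat.choose_eq_zero_of_lt hk]
      simp
  have hR : 1 ≤ R := (nrm_ge v₀).trans (hP v₀ hv₀).2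
  have h1 := h K S₀ P (R ^ Module.finrank ℚ K) (Y ^ Module.finrank ℚ K) B k (fun v hv => ⟨(hP v hv).1, by
    have h2 := nm_pos v
    have h3 : (nrm v) ^ Module.finrank ℚ K = (Ideal.absNorm v.asIdeal : ℝ) := by
      rw [nrm, ← Real.rpow_natCast, ← Real.rpow_mul (by linarith), one_div_mul_cancel hn,
        Real.rpow_one]
    rw [← h3]
    exact pow_le_pow_left₀ (by linarith [nrm_ge v]) (hP v hv).2 _⟩) hB (one_le_pow₀ hY)
  have hsub : (P.powersetCard k).filter (fun T => ¬ Good S₀ T B Y) ⊆ (P.powersetCard k).filter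
      (fun T => Pool.Agent.X61.RS.NF.Bad S₀ T B (Y ^ Module.finrank ℚ K)) := by
    intro T hT
    rw [mem_filter] at hT ⊢
    exact ⟨hT.1, bad_of_not_good hT.2⟩
  have hcard : (((P.powersetCard k).filter (fun T => ¬ Good S₀ T B Y)).card : ℝ) ≤
      (((P.powersetCard k).filter (fun T => Pool.Agent.X61.RS.NF.Bad S₀ T B
        (Y ^ Module.finrank ℚ K))).card : ℝ) := by
    exact_mod_cast card_le_card hsub
  refine (mul_le_mul_of_nonneg_right hcard (Nat.cast_nonneg _)).trans (h1.trans (le_of_eq ?_))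
  have hp : 0 ≤ R * Y * ∏ v ∈ S₀, nrm v :=
    mul_nonneg (by positivity) (prod_nonneg fun v _ => by linarith [nrm_ge v])
  rw [← prod_nrm_pow, ← mul_pow, ← mul_pow, mul_pow (C * B ^ ε), ← Real.rpow_natCast
    (R * Y * ∏ v ∈ S₀, nrm v), ← Real.rpow_natCast ((R * Y * ∏ v ∈ S₀, nrm v) ^ (2 / 3 + ε)),
    ← Real.rpow_mul hp, ← Real.rpow_mul hp, mul_comm ((Module.finrank ℚ K : ℕ) : ℝ) (2 / 3 + ε)]
  ring

end aux

open Classical in
/-- **Main theorem.** All constants are absolute: they depend neither on the number field `K` nor on its degree `n`.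
(1) For `ε > 0` there is `C` such that for every number field `K`, all finite sets `S₀`, `P` of primes of `K`,
disjoint, the primes of `P` of norm at most `R ^ n`, all `B, Y ≥ 1` and all `k`, the number of the `k`-element sets
`T ⊆ P` which are not good for `S₀`, `B`, `Y` is at most
`(C B ^ ε (R Y W) ^ (2 / 3 + ε)) ^ n * k / |P|` times the number of all `k`-element sets `T ⊆ P`, where `W` is the product
of the norms of the primes of `S₀`, to the power `1 / n`.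
(2) For `δ > 0` and `A` there is `R₀` such that for every number field `K`, all `R ≥ R₀`, all `Y ≥ 1` with
`Y W ≤ R ^ (δ / 3)` and all `k ≥ 1` with `k R ^ ((2 / 3 + δ) n) ≤ |P|` at most the proportion `R ^ (-(δ / 2) n)` of the
`k`-element sets `T ⊆ P` are not good for `S₀`, `R ^ A`, `Y`. -/
theorem result :
    (∀ ε : ℝ, 0 < ε → ∃ C : ℝ, 0 < C ∧
      ∀ (K : Type) [Field K] [NumberField K] (S₀ P : Finset (HeightOneSpectrum (𝓞 K)))
        (R Y B : ℝ) (k : ℕ), (∀ v ∈ P, v ∉ S₀ ∧ nrm v ≤ R) → 1 ≤ B → 1 ≤ Y →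
        (((P.powersetCard k).filter (fun T => ¬ Good S₀ T B Y)).card : ℝ) * P.card ≤
          (C * B ^ ε * (R * Y * ∏ v ∈ S₀, nrm v) ^ (2 / 3 + ε)) ^ Module.finrank ℚ K *
            k * P.card.choose k) ∧
    (∀ δ A : ℝ, 0 < δ → ∃ R₀ : ℝ, 0 < R₀ ∧
      ∀ (K : Type) [Field K] [NumberField K] (S₀ P : Finset (HeightOneSpectrum (𝓞 K)))
        (R Y : ℝ) (k : ℕ), (∀ v ∈ P, v ∉ S₀ ∧ nrm v ≤ R) → R₀ ≤ R → 1 ≤ Y →
        Y * ∏ v ∈ S₀, nrm v ≤ R ^ (δ / 3) → 1 ≤ k →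
        (k : ℝ) * (R ^ (2 / 3 + δ)) ^ Module.finrank ℚ K ≤ P.card →
        (((P.powersetCard k).filter (fun T => ¬ Good S₀ T (R ^ A) Y)).card : ℝ) ≤
          (R ^ (-(δ / 2))) ^ Module.finrank ℚ K * (P.powersetCard k).card) := by
  refine ⟨fun ε hε => ?_, fun δ A hδ => ?_⟩
  · obtain ⟨C, hC, h⟩ := part1 hε
    exact ⟨C, by linarith, fun K _ _ S₀ P R Y B k hP hB hY => h K S₀ P R Y B k hP hB hY⟩
  · set A' : ℝ := max A 0 with hA'
    have hA0 : 0 ≤ A' := le_max_right _ _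
    set ε : ℝ := δ / (9 * (A' + 1 + δ / 3)) with hεd
    have hden : 0 < 9 * (A' + 1 + δ / 3) := by positivity
    have hε : 0 < ε := div_pos hδ hden
    have hεeq : ε * (A' + 1 + δ / 3) = δ / 9 := by
      rw [hεd]
      field_simp
    obtain ⟨C, hC, h⟩ := part1 hε
    refine ⟨max 1 (C ^ (6 / δ)), lt_max_of_lt_left one_pos,
      fun K _ _ S₀ P R Y k hP hR hY hYW hk hkP => ?_⟩
    have hR1 : 1 ≤ R := (le_max_left _ _).trans hR
    have hR0 : 0 < R := by linarith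
    have hCR : C ≤ R ^ (δ / 6) := by
      have h1 : C ^ (6 / δ) ≤ R := (le_max_right _ _).trans hR
      calc C = (C ^ (6 / δ)) ^ (δ / 6) := by
            rw [← Real.rpow_mul (by linarith)]
            have : 6 / δ * (δ / 6) = 1 := by field_simp
            rw [this, Real.rpow_one]
        _ ≤ _ := Real.rpow_le_rpow (by positivity) h1 (by positivity)
    set n := Module.finrank ℚ K with hn
    have hW0 : 0 ≤ ∏ v ∈ S₀, nrm v := prod_nonneg fun v _ => by linarith [nrm_ge v]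
    have hBB : ∀ T : Finset (HeightOneSpectrum (𝓞 K)), ¬ Good S₀ T (R ^ A) Y → ¬ Good S₀ T (R ^ A') Y := by
      intro T hT hg
      refine hT fun x h0 h1 h2 h3 => hg x h0 h1 (h2.trans ?_) h3
      exact Real.rpow_le_rpow_of_exponent_le hR1 (le_max_left _ _)
    have h1 := h K S₀ P R Y (R ^ A') k hP (Real.one_le_rpow hR1 hA0) hY
    have hkr : (0 : ℝ) < k := by exact_mod_cast hk
    have hRn : 0 < (R ^ (2 / 3 + δ)) ^ n := by positivity
    have hPpos : (0 : ℝ) < P.card := lt_of_lt_of_le (by positivity) hkP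
    have h2 : C * (R ^ A') ^ ε * (R * Y * ∏ v ∈ S₀, nrm v) ^ (2 / 3 + ε) ≤
        R ^ (-(δ / 2)) * R ^ (2 / 3 + δ) := by
      have h3 : (R * Y * ∏ v ∈ S₀, nrm v) ^ (2 / 3 + ε) ≤ R ^ ((1 + δ / 3) * (2 / 3 + ε)) := by
        rw [Real.rpow_mul hR0.le]
        refine Real.rpow_le_rpow (by positivity) ?_ (by positivity)
        rw [Real.rpow_add hR0, Real.rpow_one, mul_assoc]
        exact mul_le_mul_of_nonneg_left hYW hR0.le
      calc C * (R ^ A') ^ ε * (R * Y * ∏ v ∈ S₀, nrm v) ^ (2 / 3 + ε)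
          ≤ R ^ (δ / 6) * (R ^ A') ^ ε * R ^ ((1 + δ / 3) * (2 / 3 + ε)) := by
            gcongr
        _ = R ^ (δ / 6 + A' * ε + (1 + δ / 3) * (2 / 3 + ε)) := by
            rw [← Real.rpow_mul hR0.le, ← Real.rpow_add hR0, ← Real.rpow_add hR0]
        _ ≤ R ^ (-(δ / 2) + (2 / 3 + δ)) := by
            refine Real.rpow_le_rpow_of_exponent_le hR1 ?_
            have : A' * ε + (1 + δ / 3) * ε = δ / 9 := by rw [← hεeq]; ring
            nlinarith
        _ = _ := Real.rpow_add hR0 _ _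
    have h3 : (C * (R ^ A') ^ ε * (R * Y * ∏ v ∈ S₀, nrm v) ^ (2 / 3 + ε)) ^ n * k ≤
        (R ^ (-(δ / 2))) ^ n * P.card := by
      calc _ ≤ (R ^ (-(δ / 2)) * R ^ (2 / 3 + δ)) ^ n * k := by
            refine mul_le_mul_of_nonneg_right (pow_le_pow_left₀ (by positivity) h2 n) hkr.le
        _ = (R ^ (-(δ / 2))) ^ n * (k * (R ^ (2 / 3 + δ)) ^ n) := by
            rw [mul_pow]
            ring
        _ ≤ _ := mul_le_mul_of_nonneg_left hkP (by positivity)
    have h4 : (((P.powersetCard k).filter (fun T => ¬ Good S₀ T (R ^ A) Y)).card : ℝ) ≤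
        (((P.powersetCard k).filter (fun T => ¬ Good S₀ T (R ^ A') Y)).card : ℝ) := by
      have : (P.powersetCard k).filter (fun T => ¬ Good S₀ T (R ^ A) Y) ⊆
          (P.powersetCard k).filter (fun T => ¬ Good S₀ T (R ^ A') Y) := by
        intro T hT
        rw [mem_filter] at hT ⊢
        exact ⟨hT.1, hBB T hT.2⟩
      exact_mod_cast card_le_card this
    rw [card_powersetCard]
    refine le_of_mul_le_mul_right ?_ hPpos
    calc (((P.powersetCard k).filter (fun T => ¬ Good S₀ T (R ^ A) Y)).card : ℝ) * P.card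
        ≤ (((P.powersetCard k).filter (fun T => ¬ Good S₀ T (R ^ A') Y)).card : ℝ) * P.card :=
          mul_le_mul_of_nonneg_right h4 hPpos.le
      _ ≤ (C * (R ^ A') ^ ε * (R * Y * ∏ v ∈ S₀, nrm v) ^ (2 / 3 + ε)) ^ n *
            k * P.card.choose k := h1
      _ ≤ ((R ^ (-(δ / 2))) ^ n * P.card) * P.card.choose k :=
          mul_le_mul_of_nonneg_right h3 (Nat.cast_nonneg _)
      _ = _ := by ring

end Pool.Agent.Results.MP_6e34ef_nt.RandomPrimeIdeals
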