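import Pool.Agent.Results.MP_6e34ef_nt.FewViolators
import Pool.Agent.X16.NW.D

/-!
# The uniform abc inequality for all numbers with height near the powers of a real number

For all real `t > 1` outside a set of Hausdorff dimension `0`, all `0 ≤ θ < 1` being fixed, and for ALL `n ≥ 2` there are
`κ` and `C` such that the uniform abc inequality `H ≤ exp (C) (δ_K N) ^ κ` holds for ALL number fields `K` of degree `n`
and ALL `x ∈ K`, `x ≠ 0, 1`, whose height `H = H (x, 1 - x, -1)` satisfies `|H ^ (n (n + 1)) - t ^ k| ≤ t ^ (θ k)` for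
some natural number `k`.

The same is true for `t ^ κ_k` with real exponents such that `κ_k / log k → ∞`, and in general for families of functions
`f_k : I → ℝ` whose logarithmic slopes are locally bounded from below by positive constants and which are locally bounded
from below by sequences with exponent of convergence at most `τ` (the exceptional set has dimension at most
`τ / (1 - θ)`; for `k ^ t`, `t ≥ a`, this is `1 / (a (1 - θ))`). The starting result `UniformAbcWindows` is about the linear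
families `t v_k`.
-/

set_option autoImplicit false

namespace Pool.Agent.Results.MP_6e34ef_nt.RealPowers

open NumberField IsDedekindDomain Filter Topology
open FewViolators (height conductor rootDisc expo Viol)
open Pool.Agent.X16.NW (ExpLe Expanding LocExpanding)

/-- the numbers: a number field inside the algebraic closure of `ℚ` and an element -/
abbrev Num : Type := Σ K : {K : IntermediateField ℚ (AlgebraicClosure ℚ) // NumberField K}, K.1

/-- the logarithm of the height of `(x, 1 - x, -1)` -/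
noncomputable def ht (p : Num) : ℝ :=
  haveI : NumberField p.1.1 := p.1.2
  height ![p.2, 1 - p.2, -1]

/-- the numbers which violate the inequality -/
def Exc (n : ℕ) (κ c : ℝ) : Set Num :=
  {p | haveI : NumberField p.1.1 := p.1.2
    Module.finrank ℚ p.1.1 = n ∧ p.2 ≠ 0 ∧ p.2 ≠ 1 ∧
      c + κ * (rootDisc p.1.1 + conductor ![p.2, 1 - p.2, -1]) < height ![p.2, 1 - p.2, -1]}

lemma count {n : ℕ} (hn : 2 ≤ n) {κ e c : ℝ} (hκ : 0 < κ)
    (H : ∀ δ : ℝ, 0 < δ → ∃ M : ℝ, ∀ B : ℝ, 1 ≤ B → (Viol n κ c B).Finite ∧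
      ((Viol n κ c B).ncard : ℝ) ≤ M * B ^ ((n : ℝ) * e / κ + δ)) (ε : ℝ) (hε : 0 < ε) :
    ∃ C : ℝ, ∀ X : ℝ, 1 ≤ X → {p | p ∈ Exc n κ c ∧ Real.exp (ht p) ^ (n * (n + 1)) ≤ X}.Finite ∧
      ({p | p ∈ Exc n κ c ∧ Real.exp (ht p) ^ (n * (n + 1)) ≤ X}.ncard : ℝ) ≤
        C * X ^ (max e 0 / ((n + 1) * κ) + ε) := by
  have hn0 : (0 : ℝ) < n := by exact_mod_cast (by omega : 0 < n)
  have hN0 : (0 : ℝ) < (n : ℝ) * ((n : ℝ) + 1) := by positivity
  obtain ⟨M, hM⟩ := H ((n : ℝ) * ((n : ℝ) + 1) * ε) (by positivity)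
  refine ⟨|M|, fun X hX => ?_⟩
  have hX0 : 0 < X := by linarith
  set B : ℝ := X ^ (1 / ((n : ℝ) * ((n : ℝ) + 1))) with hB
  have hB1 : 1 ≤ B := Real.one_le_rpow hX (by positivity)
  have hB0 : 0 < B := by linarith
  obtain ⟨hfin, hcard⟩ := hM B hB1
  set f : Num → IntermediateField ℚ (AlgebraicClosure ℚ) × AlgebraicClosure ℚ :=
    fun p => (p.1.1, (p.2 : AlgebraicClosure ℚ)) with hf
  have hinj : Function.Injective f := by
    rintro ⟨⟨K, hK⟩, x⟩ ⟨⟨L, hL⟩, y⟩ h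
    rw [hf, Prod.mk.injEq] at h
    obtain ⟨h1, h2⟩ := h
    dsimp only at h1 h2
    subst h1
    have h3 : x = y := Subtype.ext h2
    subst h3
    rfl
  have himg : f '' {p | p ∈ Exc n κ c ∧ Real.exp (ht p) ^ (n * (n + 1)) ≤ X} ⊆ Viol n κ c B := by
    rintro _ ⟨p, ⟨⟨h1, h2, h3, h4⟩, h5⟩, rfl⟩
    refine ⟨p.1.2, p.2, rfl, h1, h2, h3, ?_, h4⟩
    have h6 : Real.exp (ht p) ^ (n * (n + 1)) = Real.exp ((n : ℝ) * ((n : ℝ) + 1) * ht p) := by
      rw [← Real.exp_nat_mul]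
      push_cast
      rfl
    rw [h6, ← Real.le_log_iff_exp_le hX0] at h5
    have h7 : Real.log B = Real.log X / ((n : ℝ) * ((n : ℝ) + 1)) := by
      rw [hB, Real.log_rpow hX0]
      ring
    show ht p ≤ Real.log B
    rw [h7, le_div_iff₀ hN0]
    linarith
  have hfin2 : {p | p ∈ Exc n κ c ∧ Real.exp (ht p) ^ (n * (n + 1)) ≤ X}.Finite :=
    Set.Finite.of_finite_image (hfin.subset himg) hinj.injOn
  refine ⟨hfin2, ?_⟩
  calc ({p | p ∈ Exc n κ c ∧ Real.exp (ht p) ^ (n * (n + 1)) ≤ X}.ncard : ℝ)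
      = ((f '' {p | p ∈ Exc n κ c ∧ Real.exp (ht p) ^ (n * (n + 1)) ≤ X}).ncard : ℝ) := by
        rw [Set.ncard_image_of_injective _ hinj]
    _ ≤ ((Viol n κ c B).ncard : ℝ) := by exact_mod_cast Set.ncard_le_ncard himg hfin
    _ ≤ M * B ^ ((n : ℝ) * e / κ + (n : ℝ) * ((n : ℝ) + 1) * ε) := hcard
    _ ≤ |M| * B ^ ((n : ℝ) * e / κ + (n : ℝ) * ((n : ℝ) + 1) * ε) :=
        mul_le_mul_of_nonneg_right (le_abs_self M) (Real.rpow_nonneg hB0.le _)
    _ ≤ |M| * B ^ ((n : ℝ) * max e 0 / κ + (n : ℝ) * ((n : ℝ) + 1) * ε) := by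
        apply mul_le_mul_of_nonneg_left _ (abs_nonneg M)
        apply Real.rpow_le_rpow_of_exponent_le hB1
        have h1 : (n : ℝ) * e / κ ≤ (n : ℝ) * max e 0 / κ :=
          div_le_div_of_nonneg_right (mul_le_mul_of_nonneg_left (le_max_left _ _) hn0.le) hκ.le
        linarith
    _ = |M| * X ^ (max e 0 / ((n + 1) * κ) + ε) := by
        rw [hB, ← Real.rpow_mul hX0.le]
        congr 2
        field_simp

lemma win {n : ℕ} (hn : 2 ≤ n) {κ e : ℝ} (hκ : 0 < κ)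
    (H : ∀ c δ : ℝ, 0 < δ → ∃ M : ℝ, ∀ B : ℝ, 1 ≤ B → (Viol n κ c B).Finite ∧
      ((Viol n κ c B).ncard : ℝ) ≤ M * B ^ ((n : ℝ) * e / κ + δ))
    {f : ℕ → ℝ → ℝ} {I : Set ℝ} {τ θ : ℝ} (hτ : 0 ≤ τ) (hf : LocExpanding f I τ) (hθ0 : 0 ≤ θ) (hθ : θ < 1) :
    ∃ E : Set ℝ, dimH E ≤ ENNReal.ofReal ((max e 0 / ((n + 1) * κ) + τ) / (1 - θ)) ∧
      ∀ t ∈ I, t ∉ E → ∀ c : ℝ, ∃ k₀ : ℕ, ∀ k : ℕ, k₀ ≤ k → ∀ p ∈ Exc n κ (-c),
        (f k t) ^ θ < |Real.exp (ht p) ^ (n * (n + 1)) - f k t| := by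
  have hall : ∀ j : ℕ, ∃ E : Set ℝ, dimH E ≤ ENNReal.ofReal ((max e 0 / ((n + 1) * κ) + τ) / (1 - θ)) ∧
      ∀ t ∈ I, t ∉ E → ∃ n0 : ℕ, ∀ k : ℕ, n0 ≤ k → ∀ p ∈ Exc n κ (-(j : ℝ)),
        (f k t) ^ θ < |Real.exp (ht p) ^ (n * (n + 1)) - f k t| := fun j =>
    Pool.Agent.X16.NW.windows_loc (Exc n κ (-(j : ℝ))) (fun p => Real.exp (ht p) ^ (n * (n + 1))) hτ
      (div_nonneg (le_max_right _ _) (by positivity)) hθ0 hθ (fun ε hε => count hn hκ (H (-(j : ℝ))) ε hε) I f hf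
  choose G hG1 hG2 using hall
  refine ⟨⋃ j, G j, ?_, fun t ht htE c => ?_⟩
  · rw [dimH_iUnion]
    exact iSup_le hG1
  · obtain ⟨j, hj⟩ := exists_nat_ge c
    obtain ⟨k₀, hk⟩ := hG2 j t ht (fun h => htE (Set.mem_iUnion.2 ⟨j, h⟩))
    refine ⟨k₀, fun k hk1 p hp => hk k hk1 p ?_⟩
    obtain ⟨h1, h2, h3, h4⟩ := hp
    refine ⟨h1, h2, h3, lt_of_le_of_lt ?_ h4⟩
    linarith

lemma nonneg {K : Type} [Field K] [NumberField K] (x : Fin 3 → K) : 0 ≤ rootDisc K + conductor x := by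
  refine add_nonneg (div_nonneg (Real.log_nonneg ?_) (Nat.cast_nonneg _))
    (div_nonneg (finsum_nonneg fun v => finsum_nonneg fun _ => Real.log_natCast_nonneg _) (Nat.cast_nonneg _))
  rw [← Int.cast_abs]
  exact_mod_cast Int.one_le_abs (NumberField.discr_ne_zero K)

/-- **Theorem.** There is a function `e ≥ 0` with `e n ≤ expo n` for `n ≥ 2` (so `e 2 ≤ 1`, `e 3 ≤ 5 / 4`,
`e n ≤ (n + 2) / 4` for primes) and `e n = O (log ^ 2 n)` such that: (1) For every locally expanding family `f` on `I` with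
exponent `τ ≥ 0`, `0 ≤ θ < 1`, `n ≥ 2` and `κ > 0` there is a set `E` of Hausdorff dimension at most
`(e n / ((n + 1) κ) + τ) / (1 - θ)` such that for each `t ∈ I` outside `E` and each `c`, for all large `k`, for ALL number
fields `K` of degree `n` (in the algebraic closure of `ℚ`) and ALL `x ∈ K`, `x ≠ 0, 1`, for which the height
`H = exp (height ![x, 1 - x, -1])` satisfies `|H ^ (n (n + 1)) - f_k(t)| ≤ f_k(t) ^ θ` one has
`log H ≤ κ (log δ_K + log N) - c`. (2) There is a set `E` of dimension at most `τ / (1 - θ)` such that for each `t ∈ I`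
outside `E` and ALL `n ≥ 2` there are `κ` and `C` with `log H ≤ κ (log δ_K + log N) + C` for ALL number fields `K` of degree
`n` and ALL `x ∈ K`, `x ≠ 0, 1`, with `|H ^ (n (n + 1)) - f_k(t)| ≤ f_k(t) ^ θ` for some `k`. (3) If `κ_k / log k → ∞` then
the conclusion of (2) holds for `t ^ κ_k` for all `t > 1` outside a set of Hausdorff dimension `0`. (4) `t ^ κ_k` is
locally expanding on `(1, ∞)` with `τ = 0` if `κ_k / log k → ∞`, and `k ^ t` on `[a, ∞)` with `τ = 1 / a`. -/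
theorem result :
    (∃ e : ℕ → ℝ, (∀ n, 0 ≤ e n) ∧ (∀ n : ℕ, 2 ≤ n → e n ≤ expo n) ∧
      (∀ c : ℝ, 1 / (8 * (Real.log 2) ^ 2) < c → ∀ᶠ n : ℕ in Filter.atTop, e n ≤ c * (Real.log n) ^ 2) ∧
      ∀ (f : ℕ → ℝ → ℝ) (I : Set ℝ) (τ θ : ℝ), 0 ≤ τ → LocExpanding f I τ → 0 ≤ θ → θ < 1 → ∀ n : ℕ, 2 ≤ n →
        ∀ κ : ℝ, 0 < κ → ∃ E : Set ℝ, dimH E ≤ ENNReal.ofReal ((e n / ((n + 1) * κ) + τ) / (1 - θ)) ∧
          ∀ t ∈ I, t ∉ E → ∀ c : ℝ, ∃ k₀ : ℕ, ∀ k : ℕ, k₀ ≤ k →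
            ∀ (K : IntermediateField ℚ (AlgebraicClosure ℚ)) [NumberField K] (x : K),
              Module.finrank ℚ K = n → x ≠ 0 → x ≠ 1 →
              |Real.exp (height ![x, 1 - x, -1]) ^ (n * (n + 1)) - f k t| ≤ (f k t) ^ θ →
                height ![x, 1 - x, -1] ≤ κ * (rootDisc K + conductor ![x, 1 - x, -1]) - c) ∧
    (∀ (f : ℕ → ℝ → ℝ) (I : Set ℝ) (τ θ : ℝ), 0 ≤ τ → LocExpanding f I τ → 0 ≤ θ → θ < 1 →
        ∃ E : Set ℝ, dimH E ≤ ENNReal.ofReal (τ / (1 - θ)) ∧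
          ∀ t ∈ I, t ∉ E → ∀ n : ℕ, 2 ≤ n → ∃ κ C : ℝ, ∀ (k : ℕ)
            (K : IntermediateField ℚ (AlgebraicClosure ℚ)) [NumberField K] (x : K),
              Module.finrank ℚ K = n → x ≠ 0 → x ≠ 1 →
              |Real.exp (height ![x, 1 - x, -1]) ^ (n * (n + 1)) - f k t| ≤ (f k t) ^ θ →
                height ![x, 1 - x, -1] ≤ κ * (rootDisc K + conductor ![x, 1 - x, -1]) + C) ∧
    (∀ (q : ℕ → ℝ), Tendsto (fun k : ℕ => q k / Real.log k) atTop atTop → ∀ θ : ℝ, 0 ≤ θ → θ < 1 →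
        ∃ E : Set ℝ, dimH E = 0 ∧ ∀ t : ℝ, 1 < t → t ∉ E → ∀ n : ℕ, 2 ≤ n → ∃ κ C : ℝ, ∀ (k : ℕ)
            (K : IntermediateField ℚ (AlgebraicClosure ℚ)) [NumberField K] (x : K),
              Module.finrank ℚ K = n → x ≠ 0 → x ≠ 1 →
              |Real.exp (height ![x, 1 - x, -1]) ^ (n * (n + 1)) - t ^ q k| ≤ (t ^ q k) ^ θ →
                height ![x, 1 - x, -1] ≤ κ * (rootDisc K + conductor ![x, 1 - x, -1]) + C) ∧
    (∀ q : ℕ → ℝ, Tendsto (fun k : ℕ => q k / Real.log k) atTop atTop →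
      LocExpanding (fun k t => t ^ q k) (Set.Ioi 1) 0) ∧
    ∀ a : ℝ, 0 < a → LocExpanding (fun k t => (k : ℝ) ^ t) (Set.Ici a) (1 / a) := by
  obtain ⟨e, he1, he2, he3⟩ := FewViolators.result.1
  have hexpo : ∀ n : ℕ, 0 ≤ expo n := fun n => by
    unfold expo
    positivity
  have h2nd : ∀ (f : ℕ → ℝ → ℝ) (I : Set ℝ) (τ θ : ℝ), 0 ≤ τ → LocExpanding f I τ → 0 ≤ θ → θ < 1 →
        ∃ E : Set ℝ, dimH E ≤ ENNReal.ofReal (τ / (1 - θ)) ∧
          ∀ t ∈ I, t ∉ E → ∀ n : ℕ, 2 ≤ n → ∃ κ C : ℝ, ∀ (k : ℕ)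
            (K : IntermediateField ℚ (AlgebraicClosure ℚ)) [NumberField K] (x : K),
              Module.finrank ℚ K = n → x ≠ 0 → x ≠ 1 →
              |Real.exp (height ![x, 1 - x, -1]) ^ (n * (n + 1)) - f k t| ≤ (f k t) ^ θ →
                height ![x, 1 - x, -1] ≤ κ * (rootDisc K + conductor ![x, 1 - x, -1]) + C := by
    intro f I τ θ hτ hf hθ0 hθ
    have hall : ∀ n m : ℕ, ∃ E : Set ℝ,
        dimH E ≤ ENNReal.ofReal ((max (e (n + 2)) 0 / (((n + 2 : ℕ) : ℝ) + 1) * (1 / ((m : ℝ) + 1)) + τ) / (1 - θ)) ∧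
        ∀ t ∈ I, t ∉ E → ∀ c : ℝ, ∃ k₀ : ℕ, ∀ k : ℕ, k₀ ≤ k → ∀ p ∈ Exc (n + 2) ((m : ℝ) + 1) (-c),
          (f k t) ^ θ < |Real.exp (ht p) ^ ((n + 2) * ((n + 2) + 1)) - f k t| := by
      intro n m
      have hm0 : (0 : ℝ) < (m : ℝ) + 1 := by positivity
      obtain ⟨E, h1, h2⟩ := win (n := n + 2) (by omega) hm0
        (he3 (n + 2) (by omega) ((m : ℝ) + 1) · · hm0 ·) hτ hf hθ0 hθ
      refine ⟨E, h1.trans (le_of_eq ?_), h2⟩
      congr 2
      field_simp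
    choose G hG1 hG2 using hall
    refine ⟨⋃ n, ⋂ m, G n m, ?_, fun t htI htE n hn => ?_⟩
    · rw [dimH_iUnion]
      refine iSup_le fun n => ?_
      have hlim : Tendsto (fun m : ℕ => ENNReal.ofReal
          ((max (e (n + 2)) 0 / (((n + 2 : ℕ) : ℝ) + 1) * (1 / ((m : ℝ) + 1)) + τ) / (1 - θ))) atTop
          (𝓝 (ENNReal.ofReal ((max (e (n + 2)) 0 / (((n + 2 : ℕ) : ℝ) + 1) * 0 + τ) / (1 - θ)))) :=
        ENNReal.tendsto_ofReal (((tendsto_one_div_add_atTop_nhds_zero_nat.const_mul _).add_const τ).div_const (1 - θ))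
      rw [mul_zero, zero_add] at hlim
      exact ge_of_tendsto' hlim fun m => (dimH_mono (Set.iInter_subset _ m)).trans (hG1 n m)
    · obtain ⟨n, rfl⟩ : ∃ m, n = m + 2 := ⟨n - 2, by omega⟩
      have h1 : t ∉ ⋂ m, G n m := fun h => htE (Set.mem_iUnion.2 ⟨n, h⟩)
      rw [Set.mem_iInter] at h1
      push Not at h1
      obtain ⟨m, hm⟩ := h1
      obtain ⟨k₀, hk⟩ := hG2 n m t htI hm 0
      obtain ⟨C, hC0, hC⟩ : ∃ C : ℝ, 0 ≤ C ∧ ∀ k : ℕ, k < k₀ → f k t + (f k t) ^ θ ≤ C := by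
        refine ⟨∑ k ∈ Finset.range k₀, |f k t + (f k t) ^ θ|, Finset.sum_nonneg fun i _ => abs_nonneg _,
          fun k hk => (le_abs_self _).trans ?_⟩
        exact Finset.single_le_sum (f := fun k => |f k t + (f k t) ^ θ|) (fun i _ => abs_nonneg _)
          (Finset.mem_range.2 hk)
      refine ⟨(m : ℝ) + 1, C, fun k K hK x hd hx0 hx1 hw => ?_⟩
      have hnn := nonneg ![x, 1 - x, -1]
      have hm0 : (0 : ℝ) < (m : ℝ) + 1 := by positivity
      have hmul : 0 ≤ ((m : ℝ) + 1) * (rootDisc K + conductor ![x, 1 - x, -1]) := mul_nonneg hm0.le hnn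
      rcases Nat.lt_or_ge k k₀ with hlt | hge
      · rcases le_or_gt (height ![x, 1 - x, -1]) 0 with h0 | h0
        · linarith
        · have h3 : Real.exp (height ![x, 1 - x, -1]) ^ ((n + 2) * ((n + 2) + 1)) ≤ C := by
            have := (abs_le.1 hw).2
            have := hC k hlt
            linarith
          have h4 : 1 ≤ Real.exp (height ![x, 1 - x, -1]) := Real.one_le_exp h0.le
          have h5 : Real.exp (height ![x, 1 - x, -1]) ≤
              Real.exp (height ![x, 1 - x, -1]) ^ ((n + 2) * ((n + 2) + 1)) :=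
            le_self_pow₀ h4 (by positivity)
          have h6 := Real.add_one_le_exp (height ![x, 1 - x, -1])
          linarith
      · by_contra hcon
        push Not at hcon
        refine absurd (hk k hge ⟨⟨K, hK⟩, x⟩ ⟨hd, hx0, hx1, ?_⟩) (not_lt.2 hw)
        show -0 + ((m : ℝ) + 1) * (rootDisc K + conductor ![x, 1 - x, -1]) < height ![x, 1 - x, -1]
        linarith
  refine ⟨⟨fun n => max (e n) 0, fun n => le_max_right _ _, fun n hn => max_le (he2 n hn) (hexpo n),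
    fun c hc => ?_, fun f I τ θ hτ hf hθ0 hθ n hn κ hκ => ?_⟩, h2nd, fun q hq θ hθ0 hθ => ?_,
    fun q hq => Pool.Agent.X16.NW.loc_rpow q hq, fun a ha => Pool.Agent.X16.NW.loc_npow a ha⟩
  · have hc0 : 0 < c := lt_trans (by
      have := Real.log_pos (by norm_num : (1 : ℝ) < 2)
      positivity) hc
    filter_upwards [he1 c hc] with n hn
    exact max_le hn (by positivity)
  · obtain ⟨E, h1, h2⟩ := win hn hκ (he3 n hn κ · · hκ ·) hτ hf hθ0 hθ
    refine ⟨E, h1, fun t htI htE c => ?_⟩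
    obtain ⟨k₀, hk⟩ := h2 t htI htE c
    refine ⟨k₀, fun k hk1 K hK x hd hx0 hx1 hw => ?_⟩
    by_contra hcon
    push Not at hcon
    refine absurd (hk k hk1 ⟨⟨K, hK⟩, x⟩ ⟨hd, hx0, hx1, ?_⟩) (not_lt.2 hw)
    show -c + κ * (rootDisc K + conductor ![x, 1 - x, -1]) < height ![x, 1 - x, -1]
    linarith
  · obtain ⟨E, h1, h2⟩ := h2nd _ _ 0 θ le_rfl (Pool.Agent.X16.NW.loc_rpow q hq) hθ0 hθ
    rw [zero_div, ENNReal.ofReal_zero] at h1
    exact ⟨E, nonpos_iff_eq_zero.1 h1, fun t ht => h2 t ht⟩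

end Pool.Agent.Results.MP_6e34ef_nt.RealPowers
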