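import Pool.Agent.Results.MP_6e34ef_nt.FewViolators
import Pool.Agent.X123.MT.Null

/-!
# The uniform abc inequality for all numbers of degree `n` near the points outside a small set

Let `s` be any map from the algebraic numbers to a metric space, for example an embedding into the complex numbers or
into the completion of an algebraic closure of `ℚ_p`. There is a function `e` with `e n ≤ (n + 2) / 4` for primes and
`e n = O (log ^ 2 n)` such that for all `n ≥ 2` and `κ, τ > 0` the points `z` outside a set of Hausdorff dimension at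
most `n (e n) / (κ τ)` have the following property: over ALL number fields `K` of degree `n` the points
`x ∈ K` with `|z - s(x)| ≤ H ^ (-τ)`, `H` the height of `(x : 1 - x : -1)`, satisfy `log H ≤ κ (log δ_K + log N) + C`.
For an embedding into the complex numbers these are almost all `z` if `τ > n (e n) / (2 κ)`; almost all complex numbers
have infinitely many approximations of degree `n` with an exponent `τ` near `n (n + 1) / 2`. Outside a set of
dimension ZERO, for all `n` and `τ > 0` some `κ` works.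
-/

set_option autoImplicit false

open scoped ENNReal

namespace Pool.Agent.Results.MP_6e34ef_nt.UniformAbcNearTargets

open NumberField IsDedekindDomain
open FewViolators (height conductor rootDisc expo Viol)
open Pool.Agent.X123.MT MeasureTheory

/-- the numbers: a number field inside the algebraic closure of `ℚ` and an element -/
abbrev Num : Type := Σ K : {K : IntermediateField ℚ (AlgebraicClosure ℚ) // NumberField K}, K.1

/-- the logarithm of the height of `(x, 1 - x, -1)` -/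
noncomputable def ht (p : Num) : ℝ :=
  haveI : NumberField p.1.1 := p.1.2
  height ![p.2, 1 - p.2, -1]

/-- the logarithm of the product of the root discriminant and the conductor -/
noncomputable def rc (p : Num) : ℝ :=
  haveI : NumberField p.1.1 := p.1.2
  rootDisc p.1.1 + conductor ![p.2, 1 - p.2, -1]

/-- the numbers which violate the inequality -/
def Exc (n : ℕ) (κ c : ℝ) : Set Num :=
  {p | Module.finrank ℚ p.1.1 = n ∧ p.2 ≠ 0 ∧ p.2 ≠ 1 ∧ c + κ * rc p < ht p}

lemma ht_nonneg (p : Num) : 0 ≤ ht p := by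
  haveI : NumberField p.1.1 := p.1.2
  change 0 ≤ height ![p.2, 1 - p.2, -1]
  unfold height
  apply div_nonneg _ (Nat.cast_nonneg _)
  apply add_nonneg
  · apply Finset.sum_nonneg
    intro w _
    apply mul_nonneg (Nat.cast_nonneg _)
    apply Real.log_nonneg
    refine le_trans ?_ ((le_max_right _ _).trans (le_max_right _ _))
    exact le_of_eq ((w.1.map_neg 1).trans w.1.map_one).symm
  · apply finsum_nonneg
    intro v
    apply Real.log_nonneg
    refine le_trans ?_ ((le_max_right _ _).trans (le_max_right _ _))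
    simp

lemma cnt {n : ℕ} {κ e c : ℝ}
    (H : ∀ δ : ℝ, 0 < δ → ∃ M : ℝ, ∀ B : ℝ, 1 ≤ B → (Viol n κ c B).Finite ∧
      ((Viol n κ c B).ncard : ℝ) ≤ M * B ^ ((n : ℝ) * e / κ + δ)) :
    Cnt (Exc n κ c) ht ((n : ℝ) * e / κ) := by
  intro δ hδ
  obtain ⟨M, hM⟩ := H δ hδ
  refine ⟨M, fun t ht0 => ?_⟩
  obtain ⟨hfin, hcard⟩ := hM (Real.exp t) (Real.one_le_exp ht0)
  obtain ⟨f, hf⟩ : ∃ f : Num → IntermediateField ℚ (AlgebraicClosure ℚ) × AlgebraicClosure ℚ,
    ∀ p, f p = (p.1.1, (p.2 : AlgebraicClosure ℚ)) := ⟨_, fun _ => rfl⟩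
  have hinj : Function.Injective f := by
    rintro ⟨⟨K, hK⟩, x⟩ ⟨⟨L, hL⟩, y⟩ h
    rw [hf, hf, Prod.mk.injEq] at h
    obtain ⟨h1, h2⟩ := h
    dsimp only at h1 h2
    subst h1
    have h3 : x = y := Subtype.ext h2
    subst h3
    rfl
  have himg : f '' {p | p ∈ Exc n κ c ∧ ht p ≤ t} ⊆ Viol n κ c (Real.exp t) := by
    rintro _ ⟨p, ⟨⟨h1, h2, h3, h4⟩, h5⟩, rfl⟩
    rw [hf]
    refine ⟨p.1.2, p.2, rfl, h1, h2, h3, ?_, h4⟩
    rw [Real.log_exp]
    exact h5
  have hfin2 : {p | p ∈ Exc n κ c ∧ ht p ≤ t}.Finite :=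
    Set.Finite.of_finite_image (hfin.subset himg) hinj.injOn
  refine ⟨hfin2, ?_⟩
  calc ({p | p ∈ Exc n κ c ∧ ht p ≤ t}.ncard : ℝ)
      = ((f '' {p | p ∈ Exc n κ c ∧ ht p ≤ t}).ncard : ℝ) := by
        rw [Set.ncard_image_of_injective _ hinj]
    _ ≤ ((Viol n κ c (Real.exp t)).ncard : ℝ) := by exact_mod_cast Set.ncard_le_ncard himg hfin
    _ ≤ M * (Real.exp t) ^ ((n : ℝ) * e / κ + δ) := hcard
    _ = M * Real.exp (((n : ℝ) * e / κ + δ) * t) := by
        rw [← Real.exp_mul]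
        congr 2
        ring

/-- **Theorem.** There is a function `e ≥ 0` with `e n ≤ expo n` for `n ≥ 2` (so `e 2 ≤ 1`, `e 3 ≤ 5 / 4`,
`e n ≤ (n + 2) / 4` for primes) and `e n = O (log ^ 2 n)` such that for every map `s` from the algebraic numbers to a
metric space: (1) For `n ≥ 2` and `κ, τ > 0` there is a set `E` of Hausdorff dimension at most `n (e n) / κ / τ` such
that for each `z` outside `E` and each `c` there is `T` with `log H ≤ κ (log δ_K + log N) - c` for ALL number fields `K`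
of degree `n` (in the algebraic closure of `ℚ`) and ALL `x ∈ K`, `x ≠ 0, 1`, with `log H > T` and
`|z - s(x)| ≤ H ^ (-τ)`. (2) There is a set `E` of Hausdorff dimension zero such that for each `z` outside `E`, ALL
`n ≥ 2` and `τ > 0` there are `κ` and `C` with `log H ≤ κ (log δ_K + log N) + C` for ALL number fields `K` of degree `n`
and ALL `x ∈ K`, `x ≠ 0, 1`, with `|z - s(x)| ≤ H ^ (-τ)`. (3) If `n (e n) < 2 κ τ` and `s` is a map to the complex
numbers, the property of (1) holds for almost all complex `z`. -/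
theorem result : ∃ e : ℕ → ℝ, (∀ n, 0 ≤ e n) ∧ (∀ n : ℕ, 2 ≤ n → e n ≤ expo n) ∧
    (∀ c : ℝ, 1 / (8 * (Real.log 2) ^ 2) < c →
      ∀ᶠ n : ℕ in Filter.atTop, e n ≤ c * (Real.log n) ^ 2) ∧
    (∀ (M : Type) [MetricSpace M] (s : AlgebraicClosure ℚ → M),
      (∀ n : ℕ, 2 ≤ n → ∀ κ τ : ℝ, 0 < κ → 0 < τ →
        ∃ E : Set M, dimH E ≤ ENNReal.ofReal ((n : ℝ) * e n / κ / τ) ∧
          ∀ z : M, z ∉ E → ∀ c : ℝ, ∃ T : ℝ,
            ∀ (K : IntermediateField ℚ (AlgebraicClosure ℚ)) [NumberField K] (x : K),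
              Module.finrank ℚ K = n → x ≠ 0 → x ≠ 1 → T < height ![x, 1 - x, -1] →
              dist z (s x) ≤ Real.exp (-(τ * height ![x, 1 - x, -1])) →
                height ![x, 1 - x, -1] ≤ κ * (rootDisc K + conductor ![x, 1 - x, -1]) - c) ∧
      ∃ E : Set M, dimH E = 0 ∧ ∀ z : M, z ∉ E → ∀ n : ℕ, 2 ≤ n → ∀ τ : ℝ, 0 < τ → ∃ κ C : ℝ,
        ∀ (K : IntermediateField ℚ (AlgebraicClosure ℚ)) [NumberField K] (x : K),
          Module.finrank ℚ K = n → x ≠ 0 → x ≠ 1 →
          dist z (s x) ≤ Real.exp (-(τ * height ![x, 1 - x, -1])) →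
            height ![x, 1 - x, -1] ≤ κ * (rootDisc K + conductor ![x, 1 - x, -1]) + C) ∧
    ∀ (s : AlgebraicClosure ℚ → ℂ) (n : ℕ), 2 ≤ n → ∀ κ τ : ℝ, 0 < κ → 0 < τ →
      (n : ℝ) * e n < 2 * κ * τ → ∀ᵐ z : ℂ, ∀ c : ℝ, ∃ T : ℝ,
        ∀ (K : IntermediateField ℚ (AlgebraicClosure ℚ)) [NumberField K] (x : K),
          Module.finrank ℚ K = n → x ≠ 0 → x ≠ 1 → T < height ![x, 1 - x, -1] →
          dist z (s x) ≤ Real.exp (-(τ * height ![x, 1 - x, -1])) →
            height ![x, 1 - x, -1] ≤ κ * (rootDisc K + conductor ![x, 1 - x, -1]) - c := by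
  obtain ⟨e, he1, he2, he3⟩ := FewViolators.result.1
  have hexpo : ∀ n : ℕ, 0 ≤ expo n := fun n => by
    unfold expo
    positivity
  have hcnt : ∀ n : ℕ, 2 ≤ n → ∀ κ c : ℝ, 0 < κ →
      Cnt (Exc n κ c) ht ((n : ℝ) * max (e n) 0 / κ) := by
    intro n hn κ c hκ
    apply cnt
    intro δ hδ
    obtain ⟨M, hM⟩ := he3 n hn κ c δ hκ hδ
    refine ⟨|M|, fun B hB => ⟨(hM B hB).1, (hM B hB).2.trans ?_⟩⟩
    have hB0 : 0 < B := by linarith
    refine (mul_le_mul_of_nonneg_right (le_abs_self M) (Real.rpow_nonneg hB0.le _)).trans ?_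
    apply mul_le_mul_of_nonneg_left _ (abs_nonneg M)
    apply Real.rpow_le_rpow_of_exponent_le hB
    have h1 : (n : ℝ) * e n / κ ≤ (n : ℝ) * max (e n) 0 / κ :=
      div_le_div_of_nonneg_right (mul_le_mul_of_nonneg_left (le_max_left _ _) (Nat.cast_nonneg n))
        hκ.le
    linarith
  have main1 : ∀ (M : Type) [MetricSpace M] (s : AlgebraicClosure ℚ → M) (n : ℕ), 2 ≤ n →
      ∀ κ τ : ℝ, 0 < κ → 0 < τ →
        ∃ E : Set M, dimH E ≤ ENNReal.ofReal ((n : ℝ) * max (e n) 0 / κ / τ) ∧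
          ∀ z : M, z ∉ E → ∀ c : ℝ, ∃ T : ℝ,
            ∀ (K : IntermediateField ℚ (AlgebraicClosure ℚ)) [NumberField K] (x : K),
              Module.finrank ℚ K = n → x ≠ 0 → x ≠ 1 → T < height ![x, 1 - x, -1] →
              dist z (s x) ≤ Real.exp (-(τ * height ![x, 1 - x, -1])) →
                height ![x, 1 - x, -1] ≤ κ * (rootDisc K + conductor ![x, 1 - x, -1]) - c := by
    intro M _ s n hn κ τ hκ hτ
    obtain ⟨E, hE, hE2⟩ := pos_dim (fun k : ℕ => Exc n κ (-(k : ℝ))) ht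
      (fun _ p _ => ht_nonneg p) (by positivity : (0 : ℝ) ≤ (n : ℝ) * max (e n) 0 / κ) hτ
      (fun k => hcnt n hn κ _ hκ) (fun p => s p.2)
    refine ⟨E, hE, fun z hz c => ?_⟩
    obtain ⟨k, hk⟩ := exists_nat_ge c
    obtain ⟨T, hT⟩ := Set.Finite.bddAbove ((hE2 z hz k).image ht)
    refine ⟨T, fun K hK x hd hx0 hx1 hlt hdist => ?_⟩
    by_contra hcon
    push Not at hcon
    refine absurd (hT ⟨⟨⟨K, hK⟩, x⟩, ⟨⟨hd, hx0, hx1, ?_⟩, hdist⟩, rfl⟩) (not_le.2 hlt)
    change -(k : ℝ) + κ * (rootDisc K + conductor ![x, 1 - x, -1]) < height ![x, 1 - x, -1]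
    linarith
  refine ⟨fun n => max (e n) 0, fun n => le_max_right _ _, fun n hn => max_le (he2 n hn) (hexpo n),
    fun c hc => ?_, fun M _ s => ⟨main1 M s, ?_⟩, fun s n hn κ τ hκ hτ hlt => ?_⟩
  · have hc0 : 0 < c := lt_trans (by
      have := Real.log_pos (by norm_num : (1 : ℝ) < 2)
      positivity) hc
    filter_upwards [he1 c hc] with n hn
    exact max_le hn (by positivity)
  · obtain ⟨κ, hκ⟩ : ∃ κ : ℕ → ℕ → ℝ, ∀ k n, κ k n =
        ((n : ℝ) * max (e n) 0 + 1) * ((k : ℝ) + 1) ^ 2 := ⟨_, fun _ _ => rfl⟩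
    have hκ0 : ∀ k n, 0 < κ k n := fun k n => by
      rw [hκ]
      positivity
    obtain ⟨E, hE, hE2⟩ := levels (fun (k : ℕ) (n : ℕ) => {z : M | {p | p ∈ Exc (n + 2)
        (κ k (n + 2)) 0 ∧ dist z (s p.2) ≤ Real.exp (-(1 / ((k : ℝ) + 1) * ht p))}.Infinite})
        (fun k n => by
      refine (dim_le (Exc (n + 2) (κ k (n + 2)) 0) ht (fun p _ => ht_nonneg p)
        (by have := hκ0 k (n + 2); positivity) (by positivity)
        (hcnt (n + 2) (by omega) (κ k (n + 2)) 0 (hκ0 _ _)) (fun p => s p.2)).trans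
        (ENNReal.ofReal_le_ofReal ?_)
      have h1 := hκ0 k (n + 2)
      rw [div_div, div_le_div_iff₀ (by positivity) (by positivity), hκ]
      obtain ⟨a, ha⟩ : ∃ a : ℝ, a = ((n + 2 : ℕ) : ℝ) * max (e (n + 2)) 0 := ⟨_, rfl⟩
      have ha0 : 0 ≤ a := by rw [ha]; positivity
      rw [← ha]
      have h2 : (0 : ℝ) < (k : ℝ) + 1 := by positivity
      have h3 : 1 * ((a + 1) * ((k : ℝ) + 1) ^ 2 * (1 / ((k : ℝ) + 1))) =
          (a + 1) * ((k : ℝ) + 1) := by
        field_simp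
      rw [h3]
      nlinarith)
    refine ⟨E, hE, fun z hz n hn τ hτ => ?_⟩
    obtain ⟨J, hJ⟩ := hE2 z hz
    obtain ⟨k₀, hk₀⟩ := exists_nat_one_div_lt hτ
    obtain ⟨k, hk⟩ : ∃ k : ℕ, k = max J k₀ := ⟨_, rfl⟩
    obtain ⟨m, rfl⟩ := Nat.exists_eq_add_of_le' hn
    have h1 := hJ k (by rw [hk]; exact le_max_left _ _) m
    rw [Set.mem_ofPred_eq, Set.not_infinite] at h1
    obtain ⟨T, hT⟩ := Set.Finite.bddAbove (h1.image (fun p => ht p - κ k (m + 2) * rc p))
    refine ⟨κ k (m + 2), max T 0, fun K hK x hd hx0 hx1 hdist => ?_⟩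
    by_cases hv : 0 + κ k (m + 2) * (rootDisc K + conductor ![x, 1 - x, -1]) <
        height ![x, 1 - x, -1]
    · have h2 := hT ⟨⟨⟨K, hK⟩, x⟩, ⟨⟨hd, hx0, hx1, hv⟩, ?_⟩, rfl⟩
      · change height ![x, 1 - x, -1] -
          κ k (m + 2) * (rootDisc K + conductor ![x, 1 - x, -1]) ≤ T at h2
        have h3 := le_max_left T 0
        linarith
      · refine hdist.trans (Real.exp_le_exp.2 ?_)
        change -(τ * height ![x, 1 - x, -1]) ≤ -(1 / ((k : ℝ) + 1) * height ![x, 1 - x, -1])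
        have h4 : 0 ≤ height ![x, 1 - x, -1] := ht_nonneg ⟨⟨K, hK⟩, x⟩
        have h5 : 1 / ((k : ℝ) + 1) ≤ 1 / ((k₀ : ℝ) + 1) := by
          apply one_div_le_one_div_of_le (by positivity)
          have : (k₀ : ℝ) ≤ (k : ℝ) := by rw [hk]; exact_mod_cast le_max_right _ _
          linarith
        have h6 := mul_le_mul_of_nonneg_right (h5.trans hk₀.le) h4
        linarith
    · push Not at hv
      have h3 := le_max_right T 0
      linarith
  · obtain ⟨E, hE, hE2⟩ := main1 ℂ s n hn κ τ hκ hτ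
    have h3 : volume E = 0 := null_complex (by
      rw [div_div, div_lt_iff₀ (by positivity)]
      linarith) hE
    filter_upwards [measure_eq_zero_iff_ae_notMem.1 h3] with z hz
    exact hE2 z hz

end Pool.Agent.Results.MP_6e34ef_nt.UniformAbcNearTargets
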